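import Pool.Agent.R322.FH.Geo1
import Pool.Agent.R322.FH.Geo2
import Pool.Agent.R322.FH.Comb

/-!
# Every type B permutahedron is facet-Hamiltonian

`permB n` is the convex hull of the signed permutation vectors in `ℝⁿ`, faces are the subsets cut
out by valid linear inequalities, facets are the maximal proper faces, and a facet-Hamiltonian cycle
is a cycle in the skeleton that meets every facet in a nonempty connected part (see
`Pool/Agent/R322/FH/Defs.lean`).
-/

set_option autoImplicit false

namespace Pool.Agent.Results.MP_b3c0e4_co.EveryDimension

open Pool.Agent.R322.FH

/-- For every `n ≥ 2` the type B permutahedron `B_n` is facet-Hamiltonian. -/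
theorem result : ∀ n : ℕ, 2 ≤ n → FacetHamiltonian (permB n) :=
  assemble stmGeo1 stmGeo2 stmComb

end Pool.Agent.Results.MP_b3c0e4_co.EveryDimension
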